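import Pool.Agent.Helper52.NF.St

set_option autoImplicit false

namespace Pool.Agent.Helper3.NF

open Pool.Agent.Helper52.NF Finset

theorem hIA (h : StPB) : StIA := by
  classical
  intro ε N _ _ _ α β E J NA NB O x e₀ hh he₀ hat huniq hx hb hI
  obtain ⟨hdis, hO, hE, hC, hOz⟩ := hh
  have hJE : J ⊆ E := hC.1
  have hβx : ∀ e ∈ E, β e ≠ x := fun e he heq =>
    Finset.disjoint_left.1 hdis hx (heq ▸ (hE e he).2)
  have hα0 : α e₀ = x := by
    rcases hat with h1 | h1
    · exact h1
    · exact absurd h1 (hβx e₀ (hJE he₀))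
  have hnb : ∀ v, Nb α β E x v → v ∈ NB := by
    rintro v ⟨e, he, ⟨h1, h2⟩ | ⟨h1, h2⟩⟩
    · exact h2 ▸ (hE e he).2
    · exact absurd h2 (hβx e he)
  have hbx : bd α β J x = 1 := by
    have h1 := bd_erase α β he₀ x
    have h2 : bd α β (J.erase e₀) x = 0 := bd_of_notAt α β (fun e he hAt =>
      (Finset.mem_erase.1 he).1 (huniq e (Finset.mem_erase.1 he).2 hAt))
    rw [h2, hα0, pt_self, pt_ne (Ne.symm (hβx e₀ (hJE he₀))), add_zero] at h1
    have h3 := zz (1 : ZMod 2)
    linear_combination -h1 - h3
  have hrho : ∀ v, v ≠ x → ¬ Nb α β E x v →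
      Finset.univ.filter (fun u => rho α β E x u = v) = {v} := by
    intro v hv hn
    ext u
    simp only [Finset.mem_filter, Finset.mem_univ, true_and, Finset.mem_singleton]
    unfold rho
    constructor
    · intro hu
      split_ifs at hu with hc
      · exact absurd hu.symm hv
      · exact hu
    · rintro rfl
      rw [if_neg]
      rintro (h1 | h1)
      · exact hv h1
      · exact hn h1
  have hbv : ∀ v, v ≠ x → ¬ Nb α β E x v →
      bd (fun e => rho α β E x (α e)) (fun e => rho α β E x (β e)) (J.erase e₀) v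
        = bd α β J v := by
    intro v hv hn
    rw [hb v, hrho v hv hn, Finset.sum_singleton]
  have hNAn : ∀ v ∈ NA, ¬ Nb α β E x v := fun v hv hn =>
    Finset.disjoint_left.1 hdis hv (hnb v hn)
  have hxNB : x ∉ NB := fun hxB => Finset.disjoint_left.1 hdis hx hxB
  rcases hI with hJ | ⟨q, S', hP, hcard⟩
  · have hJ1 : J = {e₀} := by
      rw [← Finset.insert_erase he₀, hJ]
      rfl
    have hβ1 : bd α β J (β e₀) = 1 := by
      rw [hJ1, bd_singleton, hα0, pt_ne (hβx e₀ (hJE he₀)), pt_self, zero_add]
    have hβO : β e₀ ∈ NB \ O := by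
      rw [Finset.mem_sdiff]
      refine ⟨(hE e₀ (hJE he₀)).2, fun hc => ?_⟩
      rw [hOz _ hc] at hβ1
      exact zero_ne_one hβ1
    refine ⟨0, fun i => i.elim0, ⟨fun i => i.elim0, fun i => i.elim0, fun i => i.elim0,
      fun i => i.elim0⟩, ?_⟩
    have c1 : 1 ≤ (NA.filter (fun v => bd α β J v = 1)).card :=
      Finset.card_pos.2 ⟨x, Finset.mem_filter.2 ⟨hx, hbx⟩⟩
    have c2 : 1 ≤ (NB \ O).card := Finset.card_pos.2 ⟨_, hβO⟩
    have c3 : J.card = 1 := by rw [hJ1, Finset.card_singleton]
    omega
  · have hxO' : x ∉ O.filter (fun v => ¬ Nb α β E x v) := fun hc =>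
      hxNB (hO (Finset.mem_filter.1 hc).1)
    have hS := h ε N α β E J x e₀ _ q S' hb hxO' hP
    obtain ⟨p1, p2, p3, p4⟩ := hS
    have cJ : (J.erase e₀).card + 1 = J.card := Finset.card_erase_add_one he₀
    have cA : ((NA.erase x).filter (fun v =>
        bd (fun e => rho α β E x (α e)) (fun e => rho α β E x (β e)) (J.erase e₀) v = 1)).card + 1
        = (NA.filter (fun v => bd α β J v = 1)).card := by
      have e1 : (NA.erase x).filter (fun v =>
          bd (fun e => rho α β E x (α e)) (fun e => rho α β E x (β e)) (J.erase e₀) v = 1)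
          = (NA.filter (fun v => bd α β J v = 1)).erase x := by
        ext v
        simp only [Finset.mem_filter, Finset.mem_erase]
        constructor
        · rintro ⟨⟨h1, h2⟩, h3⟩
          rw [hbv v h1 (hNAn v h2)] at h3
          exact ⟨h1, h2, h3⟩
        · rintro ⟨h1, h2, h3⟩
          rw [← hbv v h1 (hNAn v h2)] at h3
          exact ⟨⟨h1, h2⟩, h3⟩
      rw [e1]
      exact Finset.card_erase_add_one (Finset.mem_filter.2 ⟨hx, hbx⟩)
    by_cases hall : ∀ v, Nb α β E x v → v ∈ O
    · have cB : ((insert x (NB.filter (fun v => ¬ Nb α β E x v))) \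
          (O.filter (fun v => ¬ Nb α β E x v))).card ≤ (NB \ O).card + 1 := by
        refine le_trans (Finset.card_le_card ?_) (Finset.card_insert_le x (NB \ O))
        intro v hv
        simp only [Finset.mem_sdiff, Finset.mem_insert, Finset.mem_filter] at hv ⊢
        tauto
      refine ⟨q + 1, Fin.cons {x} (fun i => Finset.univ.filter (fun u => rho α β E x u ∈ S' i)),
        ⟨?_, ?_, ?_, ?_⟩, ?_⟩
      · intro i
        refine Fin.cases ?_ (fun i => ?_) i
        · rw [Fin.cons_zero, Finset.sum_singleton]
          exact hbx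
        · rw [Fin.cons_succ]
          exact p1 i
      · intro i
        refine Fin.cases ?_ (fun i => ?_) i
        · intro e he h1
          rw [Fin.cons_zero, Finset.mem_singleton] at h1
          exact absurd h1 (hβx e he)
        · intro e he h1
          rw [Fin.cons_succ] at h1 ⊢
          exact p2 i e he h1
      · intro i
        refine Fin.cases ?_ (fun i => ?_) i
        · intro e he h1 _
          rw [Fin.cons_zero, Finset.mem_singleton] at h1
          exact hall _ ⟨e, he, Or.inl ⟨h1, rfl⟩⟩
        · intro e he h1 h2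
          rw [Fin.cons_succ] at h1 h2
          exact (Finset.mem_filter.1 (p3 i e he h1 h2)).1
      · intro i j
        refine Fin.cases ?_ (fun i => ?_) i
        · refine Fin.cases ?_ (fun j => ?_) j
          · intro h0
            exact absurd rfl h0
          · intro _ e he e' he' h1 _ h3 h4 heq
            rw [Fin.cons_zero, Finset.mem_singleton] at h1
            rw [Fin.cons_succ] at h3 h4
            have h5 := (Finset.mem_filter.1 (p3 j e' he' h3 h4)).2
            exact h5 ⟨e, he, Or.inl ⟨h1, heq⟩⟩
        · refine Fin.cases ?_ (fun j => ?_) j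
          · intro _ e he e' he' h1 h2 h3 _ heq
            rw [Fin.cons_zero, Finset.mem_singleton] at h3
            rw [Fin.cons_succ] at h1 h2
            have h5 := (Finset.mem_filter.1 (p3 i e he h1 h2)).2
            exact h5 ⟨e', he', Or.inl ⟨h3, heq.symm⟩⟩
          · intro hij e he e' he' h1 h2 h3 h4
            rw [Fin.cons_succ] at h1 h2 h3 h4
            exact p4 i j (fun hc => hij (by rw [hc])) e he e' he' h1 h2 h3 h4
      · omega
    · push_neg at hall
      obtain ⟨z, hz, hzO⟩ := hall
      have hzB : z ∈ NB \ O := Finset.mem_sdiff.2 ⟨hnb z hz, hzO⟩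
      have cB : ((insert x (NB.filter (fun v => ¬ Nb α β E x v))) \
          (O.filter (fun v => ¬ Nb α β E x v))).card ≤ (NB \ O).card := by
        have c1 : ((insert x (NB.filter (fun v => ¬ Nb α β E x v))) \
            (O.filter (fun v => ¬ Nb α β E x v))).card ≤ ((NB \ O).erase z).card + 1 := by
          refine le_trans (Finset.card_le_card ?_) (Finset.card_insert_le x ((NB \ O).erase z))
          intro v hv
          have hvz : ¬ Nb α β E x v → v ≠ z := fun h1 h2 => h1 (h2 ▸ hz)
          simp only [Finset.mem_sdiff, Finset.mem_insert, Finset.mem_filter,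
            Finset.mem_erase] at hv ⊢
          tauto
        have c2 := Finset.card_erase_add_one hzB
        omega
      refine ⟨q, fun i => Finset.univ.filter (fun u => rho α β E x u ∈ S' i),
        ⟨p1, p2, fun i e he h1 h2 => (Finset.mem_filter.1 (p3 i e he h1 h2)).1, p4⟩, ?_⟩
      omega

end Pool.Agent.Helper3.NF
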